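import Pool.Agent.helper81.CW.Spec1

/-! # Project cw, module V4: numerical lower bound of the volume of `M n` -/

open MeasureTheory Set
open scoped ENNReal

namespace Pool.Agent.helper81.CW

theorem V4_sq {a : ℝ} (ha : 0 ≤ a) : (a ^ ((3 : ℝ) / 2)) ^ 2 = a ^ 3 := by
  rw [← Real.rpow_natCast, ← Real.rpow_mul ha, ← Real.rpow_natCast a 3]
  congr 1
  norm_num

theorem V4_cond : ((0.66 : ℝ) ^ ((3 : ℝ) / 2)) ^ 2 + ((0.2657 : ℝ) ^ ((3 : ℝ) / 2)) ^ 2 +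
    Real.sqrt 2 * (0.2657 : ℝ) ^ ((3 : ℝ) / 2) ≤ 1 / 2 := by
  rw [V4_sq (by norm_num), V4_sq (by norm_num)]
  have h : Real.sqrt 2 * (0.2657 : ℝ) ^ ((3 : ℝ) / 2) ≤ 1 / 2 - 0.66 ^ 3 - 0.2657 ^ 3 := by
    have h0 : 0 ≤ (0.2657 : ℝ) ^ ((3 : ℝ) / 2) := Real.rpow_nonneg (by norm_num) _
    refine abs_le_of_sq_le_sq' ?_ (by norm_num) |>.2
    rw [mul_pow, V4_sq (by norm_num), Real.sq_sqrt (by norm_num)]
    norm_num
  linarith

theorem V4_base : (1.84 : ℝ) ≤ Real.sqrt (2 * Real.pi * Real.exp 1) / 2 *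
    (0.66 + 0.2657 : ℝ) ^ ((3 : ℝ) / 2) := by
  have hpi := Real.pi_gt_d6
  have he := Real.exp_one_gt_d9
  have h0 : 0 ≤ (0.66 + 0.2657 : ℝ) ^ ((3 : ℝ) / 2) := Real.rpow_nonneg (by norm_num) _
  have h1 : 0 ≤ Real.sqrt (2 * Real.pi * Real.exp 1) / 2 := by positivity
  refine abs_le_of_sq_le_sq' ?_ (mul_nonneg h1 h0) |>.2
  rw [mul_pow, V4_sq (by norm_num), div_pow, Real.sq_sqrt (by positivity)]
  have h2 : (3.141592 : ℝ) * 2.7182818283 ≤ Real.pi * Real.exp 1 :=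
    mul_le_mul hpi.le he.le (by norm_num) Real.pi_pos.le
  nlinarith

theorem V4 (hV2 : V2_stmt) (hV3 : V3_stmt) : V4_stmt := by
  obtain ⟨c, hc, h3⟩ := hV3
  refine ⟨c, hc, fun n hn => ?_⟩
  refine le_trans (ENNReal.ofReal_le_ofReal ?_) (hV2 n ((0.66 : ℝ) ^ ((3 : ℝ) / 2))
    ((0.2657 : ℝ) ^ ((3 : ℝ) / 2)) (Real.rpow_nonneg (by norm_num) _) (Real.rpow_nonneg (by norm_num) _) V4_cond)
  refine le_trans ?_ (h3 n 0.66 0.2657 hn (by norm_num) (by norm_num))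
  have hn0 : (0 : ℝ) < n := by exact_mod_cast hn
  refine div_le_div_of_nonneg_right ?_ (Real.rpow_nonneg hn0.le _)
  refine mul_le_mul_of_nonneg_left ?_ (by positivity)
  exact pow_le_pow_left₀ (by norm_num) V4_base n

end Pool.Agent.helper81.CW
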