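import Pool.Agent.helper81.CW.Spec2

/-! # Project cw, module HULL: the volume of the symmetric hull -/

open MeasureTheory Set
open scoped ENNReal

namespace Pool.Agent.helper81.CW

/-- the pieces -/
def HULL_S {n : ℕ} (D : Set (E n)) (s r : ℝ) : Set (E n) :=
  {z | ∃ x ∈ D, ∃ y ∈ D, ∃ v : E n, ‖v‖ ≤ r ∧ z = s • x - (1 - s) • y + v}

theorem HULL_diff {V : Type} [NormedAddCommGroup V] [NormedSpace ℝ V] {s r : ℝ} (hs0 : 0 ≤ s) (hs1 : s ≤ 1)
    {x x' y y' v v' : V} (hx : ‖x - x'‖ ≤ 1) (hy : ‖y - y'‖ ≤ 1) (hv : ‖v‖ ≤ r) (hv' : ‖v'‖ ≤ r) :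
    ‖s • x - (1 - s) • y + v - (s • x' - (1 - s) • y' + v')‖ ≤ 1 + 2 * r := by
  have e : s • x - (1 - s) • y + v - (s • x' - (1 - s) • y' + v') =
      s • (x - x') - (1 - s) • (y - y') + (v - v') := by module
  rw [e]
  have h2 : ‖s • (x - x')‖ ≤ s := by
    rw [norm_smul, Real.norm_of_nonneg hs0]
    exact mul_le_of_le_one_right hs0 hx
  have h3 : ‖(1 - s) • (y - y')‖ ≤ 1 - s := by
    rw [norm_smul, Real.norm_of_nonneg (by linarith)]
    exact mul_le_of_le_one_right (by linarith) hy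
  have h4 : ‖v - v'‖ ≤ r + r := (norm_sub_le _ _).trans (add_le_add hv hv')
  have h5 := norm_add_le (s • (x - x') - (1 - s) • (y - y')) (v - v')
  have h6 := norm_sub_le (s • (x - x')) ((1 - s) • (y - y'))
  linarith

theorem HULL_closure {V : Type} [NormedAddCommGroup V] {S : Set V} {c : ℝ}
    (h : ∀ x ∈ S, ∀ y ∈ S, ‖x - y‖ ≤ c) : ∀ x ∈ closure S, ∀ y ∈ closure S, ‖x - y‖ ≤ c := by
  intro x hx y hy
  have hcl : IsClosed {p : V × V | ‖p.1 - p.2‖ ≤ c} :=
    isClosed_le (continuous_fst.sub continuous_snd).norm continuous_const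
  have h1 : closure (S ×ˢ S) ⊆ {p : V × V | ‖p.1 - p.2‖ ≤ c} :=
    closure_minimal (fun p hp => h p.1 hp.1 p.2 hp.2) hcl
  have h2 : (x, y) ∈ closure (S ×ˢ S) := by
    rw [closure_prod_eq]
    exact ⟨hx, hy⟩
  exact h1 h2

theorem HULL_diam {n : ℕ} {D : Set (E n)} (hD : ∀ x ∈ D, ∀ y ∈ D, ‖x - y‖ ≤ 1) {s r : ℝ} (hs0 : 0 ≤ s)
    (hs1 : s ≤ 1) : ∀ x ∈ closure (HULL_S D s r), ∀ y ∈ closure (HULL_S D s r), ‖x - y‖ ≤ 1 + 2 * r := by
  apply HULL_closure
  intro z hz z' hz'
  obtain ⟨x, hx, y, hy, v, hv, e⟩ := hz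
  obtain ⟨x', hx', y', hy', v', hv', e'⟩ := hz'
  rw [e, e']
  exact HULL_diff hs0 hs1 (hD x hx x' hx') (hD y hy y' hy') hv hv'

theorem HULL_exp : Real.exp (Real.sqrt 2) ≤ 5 := by
  have h1 : Real.sqrt 2 ≤ 3 / 2 := by
    rw [Real.sqrt_le_left (by norm_num)]
    norm_num
  have h2 : Real.exp (3 / 2) ≤ 5 := by
    have h3 : Real.exp (3 / 2) ^ 2 = Real.exp 1 ^ 3 := by
      rw [← Real.exp_nat_mul, ← Real.exp_nat_mul]
      norm_num
    have h4 : Real.exp 1 ^ 3 ≤ 2.7182818286 ^ 3 :=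
      pow_le_pow_left₀ (Real.exp_pos _).le Real.exp_one_lt_d9.le 3
    refine abs_le_of_sq_le_sq' (?_ : Real.exp (3 / 2) ^ 2 ≤ 5 ^ 2) (by norm_num) |>.2
    rw [h3]
    refine h4.trans (by norm_num)
  exact (Real.exp_le_exp.mpr h1).trans h2

theorem HULL (hG6 : G6_stmt) : HULL_stmt := by
  classical
  intro n C hn hcomp hne hdiam hR
  set D : Set (E n) := convexHull ℝ C with hDdef
  set R : ℝ := Real.sqrt (1 / 2) with hRdef
  have hR0 : 0 ≤ R := Real.sqrt_nonneg _
  have hn0 : (0 : ℝ) < n := by exact_mod_cast hn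
  -- norms and distances in the convex hull
  have hDR : ∀ x ∈ D, ‖x‖ ≤ R := by
    have h1 : D ⊆ Metric.closedBall (0 : E n) R := by
      refine convexHull_min (fun x hx => ?_) (convex_closedBall _ _)
      rw [mem_closedBall_zero_iff]
      exact hR x hx
    intro x hx
    exact mem_closedBall_zero_iff.mp (h1 hx)
  have hDd : ∀ x ∈ D, ∀ y ∈ D, ‖x - y‖ ≤ 1 := by
    intro x hx y hy
    obtain ⟨x', hx', y', hy', h1⟩ := convexHull_exists_dist_ge2 hx hy
    rw [dist_eq_norm, dist_eq_norm] at h1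
    exact h1.trans (hdiam x' hx' y' hy')
  -- the pieces cover
  set K : ℕ → Set (E n) := fun j => closure (HULL_S D ((j : ℝ) / n) (R / n)) with hK
  have hcover : convexHull ℝ (C ∪ {x | -x ∈ C}) ⊆ ⋃ j ∈ Finset.range (n + 1), K j := by
    have hneg : {x : E n | -x ∈ C} = -C := rfl
    intro z hz
    rw [hneg, convexHull_union hne (by simpa using hne), mem_convexJoin] at hz
    obtain ⟨x, hx, w, hw, hz⟩ := hz
    rw [convexHull_neg] at hw
    obtain ⟨t, u, ht, hu, htu, rfl⟩ := hz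
    have hy : -w ∈ D := hw
    have ht1 : t ≤ 1 := by linarith
    set j : ℕ := ⌊t * n + 1 / 2⌋₊ with hj
    have hj1 : (j : ℝ) ≤ t * n + 1 / 2 := Nat.floor_le (by positivity)
    have hj2 : t * n + 1 / 2 < (j : ℝ) + 1 := Nat.lt_floor_add_one _
    have hjn : j < n + 1 := by
      have h3 : (j : ℝ) < n + 1 := by nlinarith
      exact_mod_cast h3
    rw [Set.mem_iUnion₂]
    refine ⟨j, Finset.mem_range.mpr hjn, subset_closure ⟨x, hx, -w, hy, (t - (j : ℝ) / n) • (x + -w), ?_, ?_⟩⟩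
    · rw [norm_smul]
      have h4 : ‖t - (j : ℝ) / n‖ ≤ 1 / (2 * n) := by
        rw [Real.norm_eq_abs, abs_le]
        constructor
        · rw [neg_le_sub_iff_le_add, div_le_iff₀ hn0]
          have : (t + 1 / (2 * n)) * n = t * n + 1 / 2 := by field_simp
          rw [this]
          exact hj1
        · rw [sub_le_iff_le_add, ← sub_le_iff_le_add', le_div_iff₀ hn0]
          have : (t - 1 / (2 * n)) * n = t * n - 1 / 2 := by field_simp
          rw [this]
          linarith
      have h5 : ‖x + -w‖ ≤ R + R := (norm_add_le _ _).trans (add_le_add (hDR x hx) (hDR _ hy))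
      calc ‖t - (j : ℝ) / n‖ * ‖x + -w‖ ≤ 1 / (2 * n) * (R + R) :=
            mul_le_mul h4 h5 (norm_nonneg _) (by positivity)
        _ = R / n := by field_simp; ring
    · have hu' : u = 1 - t := by linarith
      rw [hu']
      module
  -- each piece
  have hpiece : ∀ j ∈ Finset.range (n + 1),
      volume (K j) ≤ ENNReal.ofReal 5 * volume (Metric.closedBall (0 : E n) (1 / 2)) := by
    intro j hj
    have hjn : (j : ℝ) ≤ n := by
      have := Finset.mem_range.mp hj
      exact_mod_cast (by omega : j ≤ n)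
    have h1 := hG6 n (K j) (1 + 2 * (R / n)) isClosed_closure.measurableSet (by positivity)
      (HULL_diam hDd (by positivity) (by rw [div_le_one hn0]; exact hjn))
    refine h1.trans ?_
    have h2 : (1 + 2 * (R / n)) / 2 = (1 + 2 * (R / n)) * (1 / 2) := by ring
    have hpos : 0 < 1 + 2 * (R / n) := by positivity
    rw [h2, Measure.addHaar_closedBall_mul_of_pos _ _ hpos]
    refine mul_le_mul_left ?_ _
    refine ENNReal.ofReal_le_ofReal ?_
    rw [finrank_euclideanSpace_fin]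
    calc (1 + 2 * (R / n)) ^ n ≤ (Real.exp (2 * (R / n))) ^ n := by
          refine pow_le_pow_left₀ hpos.le ?_ n
          have := Real.add_one_le_exp (2 * (R / n))
          linarith
      _ = Real.exp (Real.sqrt 2) := by
          rw [← Real.exp_nat_mul]
          congr 1
          have h3 : Real.sqrt 2 = 2 * R := by
            rw [hRdef, Real.sqrt_div (by norm_num), Real.sqrt_one]
            have h4 : Real.sqrt 2 * Real.sqrt 2 = 2 := Real.mul_self_sqrt (by norm_num)
            have h5 : Real.sqrt 2 ≠ 0 := by positivity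
            field_simp
            linarith
          rw [h3]
          field_simp
      _ ≤ 5 := HULL_exp
  calc volume (convexHull ℝ (C ∪ {x | -x ∈ C})) ≤ volume (⋃ j ∈ Finset.range (n + 1), K j) :=
        measure_mono hcover
    _ ≤ ∑ j ∈ Finset.range (n + 1), volume (K j) := measure_biUnion_finset_le _ _
    _ ≤ ∑ _j ∈ Finset.range (n + 1), ENNReal.ofReal 5 * volume (Metric.closedBall (0 : E n) (1 / 2)) :=
        Finset.sum_le_sum hpiece
    _ = ENNReal.ofReal (5 * ((n : ℝ) + 1)) * volume (Metric.closedBall (0 : E n) (1 / 2)) := by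
        rw [Finset.sum_const, Finset.card_range, nsmul_eq_mul, ← mul_assoc]
        congr 1
        rw [ENNReal.ofReal_mul (by norm_num), mul_comm]
        congr 1
        rw [← Nat.cast_succ, ENNReal.ofReal_natCast]

end Pool.Agent.helper81.CW
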